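import Pool.Agent.Lib_helper70.PS.Defs

set_option autoImplicit false

/-!
Module M1a for MP_8191b7_co: from a plane drawing to disjoint connected finite sets of the
triangular lattice representing the graph as a contraction.
-/

namespace PS.M1a

open SimpleGraph

/-! ### general graph lemmas -/

theorem reachable_mono {X : Type} {G : SimpleGraph X} {S T : Set X} (h : S ⊆ T) {a b : X}
    (ha : a ∈ S) (hb : b ∈ S) (hr : (G.induce S).Reachable ⟨a, ha⟩ ⟨b, hb⟩) :
    (G.induce T).Reachable ⟨a, h ha⟩ ⟨b, h hb⟩ :=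
  hr.map (induceHomOfLE _ h).toHom

theorem extract {X : Type} (G : SimpleGraph X) (A B : Set X) (hd : Disjoint A B)
    (hAB : ∀ a ∈ A, ∀ b ∈ B, ¬ G.Adj a b) (S : Set X) :
    ∀ (p q : S) (_ : (G.induce S).Walk p q), q.1 ∈ B →
      (p.1 ∈ A ∨ (∃ K : Set X, K ⊆ S ∧ Disjoint K A ∧ Disjoint K B ∧ p.1 ∈ K ∧
        (G.induce K).Connected ∧ ∃ a ∈ A, ∃ k ∈ K, G.Adj a k)) →
      ∃ K : Set X, K ⊆ S ∧ Disjoint K A ∧ Disjoint K B ∧
        (G.induce K).Connected ∧ (∃ a ∈ A, ∃ k ∈ K, G.Adj a k) ∧ ∃ b ∈ B, ∃ k ∈ K, G.Adj k b := by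
  intro p q w
  induction w with
  | nil =>
    rename_i u
    intro hq hp
    exfalso
    rcases hp with hp | ⟨K, -, -, hKB, hpK, -⟩
    · exact Set.disjoint_left.1 hd hp hq
    · exact Set.disjoint_left.1 hKB hpK hq
  | cons hadj w ih =>
    rename_i u v z
    intro hq hp
    have hadj' : G.Adj u.1 v.1 := by simpa using hadj
    by_cases hvA : v.1 ∈ A
    · exact ih hq (Or.inl hvA)
    by_cases hvB : v.1 ∈ B
    · rcases hp with hp | ⟨K, hKS, hKA, hKB, hpK, hKc, hKa⟩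
      · exact absurd hadj' (hAB _ hp _ hvB)
      · exact ⟨K, hKS, hKA, hKB, hKc, hKa, v.1, hvB, u.1, hpK, hadj'⟩
    · apply ih hq
      right
      rcases hp with hp | ⟨K, hKS, hKA, hKB, hpK, hKc, a, haA, k, hkK, hak⟩
      · refine ⟨{v.1}, by simp, by simpa using hvA, by simpa using hvB, rfl, ?_,
          u.1, hp, v.1, rfl, hadj'⟩
        have : Nonempty ({v.1} : Set X) := ⟨⟨v.1, rfl⟩⟩
        have : Subsingleton ({v.1} : Set X) := by
          constructor
          rintro ⟨x, hx⟩ ⟨y, hy⟩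
          simp only [Set.mem_singleton_iff] at hx hy
          simp [hx, hy]
        exact ⟨fun x y => by rw [Subsingleton.elim x y]⟩
      · refine ⟨insert v.1 K, ?_, ?_, ?_, Set.mem_insert _ _, ?_, a, haA, k,
          Set.mem_insert_of_mem _ hkK, hak⟩
        · intro x hx
          rcases hx with rfl | hx
          · exact v.2
          · exact hKS hx
        · rw [Set.disjoint_insert_left]; exact ⟨hvA, hKA⟩
        · rw [Set.disjoint_insert_left]; exact ⟨hvB, hKB⟩
        · refine G.induce_connected_of_patches u.1 (Set.mem_insert_of_mem _ hpK) ?_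
          intro x hx
          refine ⟨insert v.1 K, subset_rfl, Set.mem_insert_of_mem _ hpK, hx, ?_⟩
          rcases hx with rfl | hx
          · apply SimpleGraph.Adj.reachable
            simpa using hadj'
          · exact reachable_mono (Set.subset_insert _ _) hpK hx
              (hKc.preconnected ⟨u.1, hpK⟩ ⟨x, hx⟩)

/-! ### the lattice -/

theorem lat_near {a b : ℤ × ℤ} (h : Lat.Adj a b) : |a.1 - b.1| ≤ 1 ∧ |a.2 - b.2| ≤ 1 := by
  obtain ⟨j, rfl⟩ := h
  fin_cases j <;> simp [dir]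

theorem lat_right (x y : ℤ) : Lat.Adj (x, y) (x + 1, y) := ⟨0, by simp [dir]⟩
theorem lat_up (x y : ℤ) : Lat.Adj (x, y) (x, y + 1) := ⟨1, by simp [dir]⟩

theorem reach_near {S : Set (ℤ × ℤ)} {a b : ℤ × ℤ} (ha : a ∈ S) (hb : b ∈ S)
    (h1 : |a.1 - b.1| ≤ 1) (h2 : |a.2 - b.2| ≤ 1) (hc : (b.1, a.2) ∈ S) :
    (Lat.induce S).Reachable ⟨a, ha⟩ ⟨b, hb⟩ := by
  obtain ⟨a1, a2⟩ := a
  obtain ⟨b1, b2⟩ := b
  simp only at h1 h2 hc
  have s1 : (Lat.induce S).Reachable ⟨(a1, a2), ha⟩ ⟨(b1, a2), hc⟩ := by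
    rcases eq_or_ne a1 b1 with rfl | hne
    · exact Reachable.refl _
    rcases lt_or_gt_of_ne hne with hlt | hlt
    · have : b1 = a1 + 1 := by rw [abs_le] at h1; omega
      subst this
      apply SimpleGraph.Adj.reachable
      simpa using lat_right a1 a2
    · have : a1 = b1 + 1 := by rw [abs_le] at h1; omega
      subst this
      apply SimpleGraph.Adj.reachable
      simpa using (lat_right b1 a2).symm
  have s2 : (Lat.induce S).Reachable ⟨(b1, a2), hc⟩ ⟨(b1, b2), hb⟩ := by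
    rcases eq_or_ne a2 b2 with rfl | hne
    · exact Reachable.refl _
    rcases lt_or_gt_of_ne hne with hlt | hlt
    · have : b2 = a2 + 1 := by rw [abs_le] at h2; omega
      subst this
      apply SimpleGraph.Adj.reachable
      simpa using lat_up b1 a2
    · have : a2 = b2 + 1 := by rw [abs_le] at h2; omega
      subst this
      apply SimpleGraph.Adj.reachable
      simpa using (lat_up b1 b2).symm
  exact s1.trans s2

/-- lattice boxes -/
def Box (c : ℤ × ℤ) (R : ℕ) : Set (ℤ × ℤ) := {a | |a.1 - c.1| ≤ R ∧ |a.2 - c.2| ≤ R}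

theorem mem_box_self (c : ℤ × ℤ) (R : ℕ) : c ∈ Box c R := by simp [Box]

theorem box_finite (c : ℤ × ℤ) (R : ℕ) : (Box c R).Finite := by
  refine ((Set.finite_Icc (c.1 - R) (c.1 + R)).prod (Set.finite_Icc (c.2 - R) (c.2 + R))).subset ?_
  rintro ⟨x, y⟩ ⟨h1, h2⟩
  simp only [abs_le] at h1 h2
  simp only [Set.mem_prod, Set.mem_Icc]
  refine ⟨⟨?_, ?_⟩, ⟨?_, ?_⟩⟩ <;> omega

theorem box_mono (c : ℤ × ℤ) {R R' : ℕ} (h : R ≤ R') : Box c R ⊆ Box c R' := by
  rintro a ⟨h1, h2⟩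
  exact ⟨h1.trans (by exact_mod_cast h), h2.trans (by exact_mod_cast h)⟩

theorem box_connected (c : ℤ × ℤ) (R : ℕ) : (Lat.induce (Box c R)).Connected := by
  induction R with
  | zero =>
    refine Lat.induce_connected_of_patches c (mem_box_self c 0) ?_
    rintro ⟨x, y⟩ hv
    refine ⟨Box c 0, subset_rfl, mem_box_self c 0, hv, ?_⟩
    obtain ⟨h1, h2⟩ := hv
    have : (x, y) = c := by
      simp only [Nat.cast_zero, abs_nonpos_iff] at h1 h2
      ext <;> simp <;> omega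
    subst this
    exact Reachable.refl _
  | succ R ih =>
    refine Lat.induce_connected_of_patches c (mem_box_self c _) ?_
    rintro ⟨x, y⟩ hv
    refine ⟨Box c (R + 1), subset_rfl, mem_box_self c _, hv, ?_⟩
    -- the point of the smaller box next to (x,y)
    have hv' := hv
    obtain ⟨h1, h2⟩ := hv'
    simp only [abs_le, Nat.cast_add, Nat.cast_one] at h1 h2
    obtain ⟨x', hx', hxx⟩ : ∃ x' : ℤ, |x' - c.1| ≤ R ∧ |x - x'| ≤ 1 := by
      rcases lt_trichotomy x c.1 with h | h | h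
      · exact ⟨x + 1, by rw [abs_le]; omega, by rw [abs_le]; omega⟩
      · exact ⟨x, by rw [abs_le]; omega, by simp⟩
      · exact ⟨x - 1, by rw [abs_le]; omega, by rw [abs_le]; omega⟩
    obtain ⟨y', hy', hyy⟩ : ∃ y' : ℤ, |y' - c.2| ≤ R ∧ |y - y'| ≤ 1 := by
      rcases lt_trichotomy y c.2 with h | h | h
      · exact ⟨y + 1, by rw [abs_le]; omega, by rw [abs_le]; omega⟩
      · exact ⟨y, by rw [abs_le]; omega, by simp⟩
      · exact ⟨y - 1, by rw [abs_le]; omega, by rw [abs_le]; omega⟩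
    have hm : (x', y') ∈ Box c R := ⟨hx', hy'⟩
    have hm' : (x', y') ∈ Box c (R + 1) := box_mono c (Nat.le_succ R) hm
    have hm2 : (x', y) ∈ Box c (R + 1) := ⟨hm'.1, hv.2⟩
    have r1 := reachable_mono (box_mono c (Nat.le_succ R)) (mem_box_self c R) hm
      (ih.preconnected ⟨c, mem_box_self c R⟩ ⟨(x', y'), hm⟩)
    have r2 : (Lat.induce (Box c (R + 1))).Reachable ⟨(x, y), hv⟩ ⟨(x', y'), hm'⟩ :=
      reach_near hv hm' hxx hyy hm2
    exact r1.trans r2.symm

/-! ### following an arc in the lattice -/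

/-- the real point of a lattice point -/
def pt (a : ℤ × ℤ) : ℝ × ℝ := ((a.1 : ℝ), (a.2 : ℝ))

/-- rounding -/
noncomputable def rd (z : ℝ × ℝ) : ℤ × ℤ := (⌊z.1⌋, ⌊z.2⌋)

theorem dist_rd (z : ℝ × ℝ) : dist (pt (rd z)) z ≤ 1 := by
  rw [Prod.dist_eq, max_le_iff, Real.dist_eq, Real.dist_eq, abs_le, abs_le]
  have h1 := Int.floor_le z.1
  have h2 := Int.lt_floor_add_one z.1
  have h3 := Int.floor_le z.2
  have h4 := Int.lt_floor_add_one z.2
  simp only [pt, rd]
  refine ⟨⟨?_, ?_⟩, ⟨?_, ?_⟩⟩ <;> linarith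

/-- lattice points close to an arc -/
def Tube (Γ : unitInterval → ℝ × ℝ) : Set (ℤ × ℤ) := {a | ∃ t, dist (pt a) (Γ t) ≤ 2}

theorem rd_mem_tube (Γ : unitInterval → ℝ × ℝ) (t : unitInterval) : rd (Γ t) ∈ Tube Γ :=
  ⟨t, (dist_rd _).trans (by norm_num)⟩

theorem tube_reach (Γ : unitInterval → ℝ × ℝ) (hΓ : Continuous Γ) (s t : unitInterval) :
    (Lat.induce (Tube Γ)).Reachable ⟨rd (Γ s), rd_mem_tube Γ s⟩ ⟨rd (Γ t), rd_mem_tube Γ t⟩ := by
  have key : IsLocallyConstant (fun t : unitInterval =>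
      (Lat.induce (Tube Γ)).connectedComponentMk ⟨rd (Γ t), rd_mem_tube Γ t⟩) := by
    rw [IsLocallyConstant.iff_eventually_eq]
    intro t
    have := hΓ.continuousAt.eventually (Metric.ball_mem_nhds (Γ t) one_pos)
    filter_upwards [this] with s hs
    rw [ConnectedComponent.eq]
    rw [Prod.dist_eq, max_lt_iff, Real.dist_eq, Real.dist_eq, abs_lt, abs_lt] at hs
    have h1 := Int.floor_le (Γ s).1
    have h2 := Int.lt_floor_add_one (Γ s).1
    have h3 := Int.floor_le (Γ s).2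
    have h4 := Int.lt_floor_add_one (Γ s).2
    have h1' := Int.floor_le (Γ t).1
    have h2' := Int.lt_floor_add_one (Γ t).1
    have h3' := Int.floor_le (Γ t).2
    have h4' := Int.lt_floor_add_one (Γ t).2
    refine reach_near _ _ ?_ ?_ ?_
    · simp only [rd, abs_le]
      have e1 : (⌊(Γ s).1⌋ : ℝ) - ⌊(Γ t).1⌋ < 2 := by linarith
      have e2 : (⌊(Γ t).1⌋ : ℝ) - ⌊(Γ s).1⌋ < 2 := by linarith
      have e1' : ⌊(Γ s).1⌋ - ⌊(Γ t).1⌋ < 2 := by exact_mod_cast e1
      have e2' : ⌊(Γ t).1⌋ - ⌊(Γ s).1⌋ < 2 := by exact_mod_cast e2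
      constructor <;> omega
    · simp only [rd, abs_le]
      have e1 : (⌊(Γ s).2⌋ : ℝ) - ⌊(Γ t).2⌋ < 2 := by linarith
      have e2 : (⌊(Γ t).2⌋ : ℝ) - ⌊(Γ s).2⌋ < 2 := by linarith
      have e1' : ⌊(Γ s).2⌋ - ⌊(Γ t).2⌋ < 2 := by exact_mod_cast e1
      have e2' : ⌊(Γ t).2⌋ - ⌊(Γ s).2⌋ < 2 := by exact_mod_cast e2
      constructor <;> omega
    · refine ⟨t, ?_⟩
      rw [Prod.dist_eq, max_le_iff, Real.dist_eq, Real.dist_eq, abs_le, abs_le]
      simp only [pt, rd]
      refine ⟨⟨?_, ?_⟩, ⟨?_, ?_⟩⟩ <;> linarith [hs.1.1, hs.1.2, hs.2.1, hs.2.2]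
  have := key.apply_eq_of_preconnectedSpace s t
  exact ConnectedComponent.eq.1 this

theorem tube_finite (Γ : unitInterval → ℝ × ℝ) (hΓ : Continuous Γ) : (Tube Γ).Finite := by
  have hc : IsCompact (Set.range Γ) := isCompact_range hΓ
  obtain ⟨C, hC⟩ := hc.isBounded.exists_norm_le
  have hC' : ∀ t, |(Γ t).1| ≤ C ∧ |(Γ t).2| ≤ C := by
    intro t
    have := hC _ (Set.mem_range_self t)
    rw [Prod.norm_def, max_le_iff] at this
    exact this
  obtain ⟨n, hn⟩ := exists_nat_ge (C + 2)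
  refine ((Set.finite_Icc (-(n : ℤ)) n).prod (Set.finite_Icc (-(n : ℤ)) n)).subset ?_
  rintro ⟨x, y⟩ ⟨t, ht⟩
  rw [Prod.dist_eq, max_le_iff, Real.dist_eq, Real.dist_eq, abs_le, abs_le] at ht
  obtain ⟨c1, c2⟩ := hC' t
  rw [abs_le] at c1 c2
  simp only [pt] at ht
  simp only [Set.mem_prod, Set.mem_Icc]
  have a1 : (-(n : ℝ)) ≤ x := by linarith [ht.1.1]
  have a2 : (x : ℝ) ≤ n := by linarith [ht.1.2]
  have a3 : (-(n : ℝ)) ≤ y := by linarith [ht.2.1]
  have a4 : (y : ℝ) ≤ n := by linarith [ht.2.2]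
  exact ⟨⟨by exact_mod_cast a1, by exact_mod_cast a2⟩, ⟨by exact_mod_cast a3, by exact_mod_cast a4⟩⟩


theorem dist_near {a b : ℤ × ℤ} (h : |a.1 - b.1| ≤ 1 ∧ |a.2 - b.2| ≤ 1) :
    dist (pt a) (pt b) ≤ 1 := by
  rw [Prod.dist_eq, max_le_iff, Real.dist_eq, Real.dist_eq]
  simp only [pt]
  exact ⟨by exact_mod_cast h.1, by exact_mod_cast h.2⟩

theorem dist_of_mem_box {z : ℝ × ℝ} {R : ℕ} {a : ℤ × ℤ} (h : a ∈ Box (rd z) R) :
    dist (pt a) z ≤ R + 1 := by
  have h1 : dist (pt a) (pt (rd z)) ≤ R := by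
    rw [Prod.dist_eq, max_le_iff, Real.dist_eq, Real.dist_eq]
    simp only [pt]
    exact ⟨by exact_mod_cast h.1, by exact_mod_cast h.2⟩
  have h2 := dist_rd z
  have h3 := dist_triangle (pt a) (pt (rd z)) z
  linarith

theorem dist_of_notMem_box {z : ℝ × ℝ} {R : ℕ} {a : ℤ × ℤ} (h : a ∉ Box (rd z) R) :
    (R : ℝ) ≤ dist (pt a) z := by
  have h1 : (R : ℝ) + 1 ≤ dist (pt a) (pt (rd z)) := by
    rw [Prod.dist_eq, le_max_iff, Real.dist_eq, Real.dist_eq]
    simp only [Box, Set.mem_ofPred_eq, not_and_or, not_le] at h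
    simp only [pt]
    rcases h with h | h
    · left
      have : (R : ℤ) + 1 ≤ |a.1 - (rd z).1| := by omega
      exact_mod_cast this
    · right
      have : (R : ℤ) + 1 ≤ |a.2 - (rd z).2| := by omega
      exact_mod_cast this
  have h2 := dist_rd z
  have h3 := dist_triangle (pt a) z (pt (rd z))
  rw [dist_comm z] at h3
  linarith

/-- the scaled statement -/
theorem scaled {V : Type} [Fintype V] (G : SimpleGraph V) (F : V → ℝ × ℝ)
    (Γ : ∀ u v, G.Adj u v → unitInterval → ℝ × ℝ) (R : ℕ)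
    (hc : ∀ u v h, Continuous (Γ u v h)) (h0 : ∀ u v h, Γ u v h 0 = F u)
    (h1 : ∀ u v h, Γ u v h 1 = F v)
    (s1 : ∀ u v, u ≠ v → 2 * (R : ℝ) + 10 < dist (F u) (F v))
    (s2 : ∀ u v h w t, w ≠ u → w ≠ v → (R : ℝ) + 10 < dist (Γ u v h t) (F w))
    (s3 : ∀ u v x y h h' s t, s(u, v) ≠ s(x, y) →
      (R : ℝ) - 5 ≤ dist (Γ u v h s) (F u) → (R : ℝ) - 5 ≤ dist (Γ u v h s) (F v) →
      (R : ℝ) - 5 ≤ dist (Γ x y h' t) (F x) → (R : ℝ) - 5 ≤ dist (Γ x y h' t) (F y) →
      10 < dist (Γ u v h s) (Γ x y h' t)) :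
    ∃ fib : V → Set (ℤ × ℤ), (∀ v, (fib v).Finite) ∧ (∀ v, (Lat.induce (fib v)).Connected) ∧
      (∀ u v, u ≠ v → Disjoint (fib u) (fib v)) ∧
      (∀ u v, u ≠ v → ((∃ a ∈ fib u, ∃ b ∈ fib v, Lat.Adj a b) ↔ G.Adj u v)) := by
  classical
  set bx : V → Set (ℤ × ℤ) := fun v => Box (rd (F v)) R with hbx
  -- the three separation facts
  have F1 : ∀ u v, u ≠ v → ∀ a ∈ bx u, ∀ b ∈ bx v, ¬ (|a.1 - b.1| ≤ 1 ∧ |a.2 - b.2| ≤ 1) := by
    intro u v huv a ha b hb hn
    have e1 := dist_of_mem_box ha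
    have e2 := dist_of_mem_box hb
    have e3 := dist_near hn
    have e4 := s1 u v huv
    have e5 := dist_triangle4 (F u) (pt a) (pt b) (F v)
    rw [dist_comm (F u) (pt a)] at e5
    linarith
  have F2 : ∀ u v (h : G.Adj u v) w, w ≠ u → w ≠ v → ∀ a ∈ bx w, ∀ b ∈ Tube (Γ u v h),
      ¬ (|a.1 - b.1| ≤ 1 ∧ |a.2 - b.2| ≤ 1) := by
    intro u v h w hwu hwv a ha b hb hn
    obtain ⟨t, ht⟩ := hb
    have e1 := dist_of_mem_box ha
    have e3 := dist_near hn
    have e4 := s2 u v h w t hwu hwv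
    have e5 := dist_triangle4 (F w) (pt a) (pt b) (Γ u v h t)
    rw [dist_comm (F w) (pt a), dist_comm (F w)] at e5
    linarith
  have F3 : ∀ u v x y (h : G.Adj u v) (h' : G.Adj x y), s(u, v) ≠ s(x, y) →
      ∀ a ∈ Tube (Γ u v h), a ∉ bx u → a ∉ bx v → ∀ b ∈ Tube (Γ x y h'), b ∉ bx x → b ∉ bx y →
      ¬ (|a.1 - b.1| ≤ 1 ∧ |a.2 - b.2| ≤ 1) := by
    intro u v x y h h' hne a ha hau hav b hb hbx' hby hn
    obtain ⟨s, hs⟩ := ha
    obtain ⟨t, ht⟩ := hb
    have e1 := dist_of_notMem_box hau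
    have e2 := dist_of_notMem_box hav
    have e3 := dist_of_notMem_box hbx'
    have e4 := dist_of_notMem_box hby
    have e5 := dist_near hn
    have t1 := dist_triangle (pt a) (Γ u v h s) (F u)
    have t2 := dist_triangle (pt a) (Γ u v h s) (F v)
    have t3 := dist_triangle (pt b) (Γ x y h' t) (F x)
    have t4 := dist_triangle (pt b) (Γ x y h' t) (F y)
    have e6 := s3 u v x y h h' s t hne (by linarith) (by linarith) (by linarith) (by linarith)
    have t5 := dist_triangle4 (Γ u v h s) (pt a) (pt b) (Γ x y h' t)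
    rw [dist_comm (Γ u v h s) (pt a)] at t5
    linarith
  -- the connecting sets
  have hK : ∀ u v (h : G.Adj u v), ∃ K : Set (ℤ × ℤ), K ⊆ Tube (Γ u v h) ∧ Disjoint K (bx u) ∧
      Disjoint K (bx v) ∧ (Lat.induce K).Connected ∧ (∃ a ∈ bx u, ∃ k ∈ K, Lat.Adj a k) ∧
      ∃ b ∈ bx v, ∃ k ∈ K, Lat.Adj k b := by
    intro u v h
    obtain ⟨w⟩ := tube_reach (Γ u v h) (hc u v h) 0 1
    have huv := h.ne
    refine extract Lat (bx u) (bx v) ?_ ?_ _ _ _ w ?_ (Or.inl ?_)
    · rw [Set.disjoint_left]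
      intro a ha hb
      exact F1 u v huv a ha a hb (by simp)
    · intro a ha b hb hab
      exact F1 u v huv a ha b hb (lat_near hab)
    · simp only [hbx, h1]; exact mem_box_self _ _
    · simp only [hbx, h0]; exact mem_box_self _ _
  choose K hKT hKu hKv hKc hKa hKb using hK
  obtain ⟨rk, hrk⟩ : ∃ rk : V → ℕ, Function.Injective rk :=
    ⟨fun v => (Fintype.equivFin V v).1, fun a b h => (Fintype.equivFin V).injective (Fin.ext h)⟩
  -- the fibres
  set fib : V → Set (ℤ × ℤ) := fun v =>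
    bx v ∪ {a | ∃ (u : V) (h : G.Adj u v), rk u < rk v ∧ a ∈ K u v h} with hfib
  -- symmetric separation of two connecting sets
  have F4 : ∀ u v x y (h : G.Adj u v) (h' : G.Adj x y), v ≠ y → rk u < rk v → rk x < rk y →
      ∀ a ∈ K u v h, ∀ b ∈ K x y h', ¬ (|a.1 - b.1| ≤ 1 ∧ |a.2 - b.2| ≤ 1) := by
    intro u v x y h h' hvy r1 r2 a ha b hb
    refine F3 u v x y h h' ?_ a (hKT _ _ _ ha) (Set.disjoint_left.1 (hKu _ _ _) ha)
      (Set.disjoint_left.1 (hKv _ _ _) ha) b (hKT _ _ _ hb) (Set.disjoint_left.1 (hKu _ _ _) hb)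
      (Set.disjoint_left.1 (hKv _ _ _) hb)
    intro hs
    rw [Sym2.eq_iff] at hs
    rcases hs with ⟨-, h2⟩ | ⟨h2, h3⟩
    · exact hvy h2
    · rw [h2, h3] at r1
      omega
  -- separation of all the pieces
  have Fall : ∀ u v, u ≠ v → ¬ G.Adj u v → ∀ a ∈ fib u, ∀ b ∈ fib v,
      ¬ (|a.1 - b.1| ≤ 1 ∧ |a.2 - b.2| ≤ 1) := by
    intro u v huv hnadj a ha b hb hn
    rcases ha with ha | ⟨x, hx, hrx, ha⟩
    · rcases hb with hb | ⟨y, hy, hry, hb⟩
      · exact F1 u v huv a ha b hb hn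
      · have hyu : u ≠ y := by rintro rfl; exact hnadj hy
        exact F2 y v hy u hyu huv a ha b (hKT _ _ _ hb) hn
    · rcases hb with hb | ⟨y, hy, hry, hb⟩
      · have hxv : v ≠ x := by rintro rfl; exact hnadj hx.symm
        refine F2 x u hx v hxv huv.symm b hb a (hKT _ _ _ ha) ?_
        rw [abs_sub_comm b.1, abs_sub_comm b.2]
        exact hn
      · exact F4 x u y v hx hy huv hrx hry a ha b hb hn
  refine ⟨fib, ?_, ?_, ?_, ?_⟩
  · intro v
    refine (box_finite _ _).union ?_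
    have : {a | ∃ (u : V) (h : G.Adj u v), rk u < rk v ∧ a ∈ K u v h} ⊆
        ⋃ u : V, ⋃ h : G.Adj u v, K u v h := by
      rintro a ⟨u, h, -, ha⟩
      exact Set.mem_iUnion₂.2 ⟨u, h, ha⟩
    refine Set.Finite.subset ?_ this
    refine Set.finite_iUnion fun u => Set.finite_iUnion fun h => ?_
    exact (tube_finite _ (hc u v h)).subset (hKT _ _ _)
  · intro v
    refine Lat.induce_connected_of_patches (rd (F v)) (Or.inl (mem_box_self _ _)) ?_
    rintro a (ha | ⟨u, h, hr, ha⟩)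
    · refine ⟨bx v, Set.subset_union_left, mem_box_self _ _, ha, ?_⟩
      exact (box_connected _ _).preconnected _ _
    · obtain ⟨b, hb, k, hk, hkb⟩ := hKb u v h
      refine ⟨bx v ∪ K u v h, ?_, Or.inl (mem_box_self _ _), Or.inr ha, ?_⟩
      · rintro c (hc' | hc')
        · exact Or.inl hc'
        · exact Or.inr ⟨u, h, hr, hc'⟩
      · have q1 := reachable_mono (Set.subset_union_left (t := K u v h))
          (mem_box_self (rd (F v)) R) hb ((box_connected _ _).preconnected _ _)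
        have q2 := reachable_mono (Set.subset_union_right (s := bx v)) hk ha
          ((hKc u v h).preconnected _ _)
        have q3 : (Lat.induce (bx v ∪ K u v h)).Reachable ⟨b, Or.inl hb⟩ ⟨k, Or.inr hk⟩ := by
          apply SimpleGraph.Adj.reachable
          simpa using hkb.symm
        exact (q1.trans q3).trans q2
  · -- disjointness
    intro u v huv
    rw [Set.disjoint_left]
    intro a ha hb
    rcases ha with ha | ⟨x, hx, hrx, ha⟩
    · rcases hb with hb | ⟨y, hy, hry, hb⟩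
      · exact F1 u v huv a ha a hb (by simp)
      · by_cases hyu : u = y
        · subst hyu
          exact Set.disjoint_left.1 (hKu _ _ _) hb ha
        · exact F2 y v hy u hyu huv a ha a (hKT _ _ _ hb) (by simp)
    · rcases hb with hb | ⟨y, hy, hry, hb⟩
      · by_cases hxv : v = x
        · subst hxv
          exact Set.disjoint_left.1 (hKu _ _ _) ha hb
        · exact F2 x u hx v hxv huv.symm a hb a (hKT _ _ _ ha) (by simp)
      · exact F4 x u y v hx hy huv hrx hry a ha a hb (by simp)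
  · intro u v huv
    constructor
    · rintro ⟨a, ha, b, hb, hab⟩
      by_contra hnadj
      exact Fall u v huv hnadj a ha b hb (lat_near hab)
    · intro h
      rcases lt_trichotomy (rk u) (rk v) with hr | hr | hr
      · obtain ⟨a, ha, k, hk, hak⟩ := hKa u v h
        exact ⟨a, Or.inl ha, k, Or.inr ⟨u, h, hr, hk⟩, hak⟩
      · exact absurd (hrk hr) huv
      · obtain ⟨a, ha, k, hk, hak⟩ := hKa v u h.symm
        exact ⟨k, Or.inr ⟨v, h.symm, hr, hk⟩, a, Or.inl ha, hak.symm⟩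

/-! ### compactness -/

theorem fin_eps {ι : Type} [Finite ι] (Q : ι → ℝ → Prop)
    (mono : ∀ i a b, a ≤ b → Q i b → Q i a) (h : ∀ i, ∃ e > 0, Q i e) :
    ∃ e > 0, ∀ i, Q i e := by
  choose e he hQ using h
  obtain ⟨M, hM⟩ := Finite.exists_ge (fun i => (⟨e i, he i⟩ : Set.Ioi (0 : ℝ)))
  exact ⟨M.1, M.2, fun i => mono i _ _ (hM i) (hQ i)⟩

theorem pos_dist (K : Set (unitInterval × unitInterval)) (hK : IsClosed K)
    (g g' : unitInterval → ℝ × ℝ) (hg : Continuous g) (hg' : Continuous g')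
    (hne : ∀ p ∈ K, g p.1 ≠ g' p.2) :
    ∃ e > 0, ∀ p ∈ K, e ≤ dist (g p.1) (g' p.2) := by
  rcases K.eq_empty_or_nonempty with rfl | hn
  · exact ⟨1, one_pos, by simp⟩
  · have hcont : Continuous (fun p : unitInterval × unitInterval => dist (g p.1) (g' p.2)) := by
      fun_prop
    obtain ⟨p, hp, hmin⟩ := hK.isCompact.exists_isMinOn hn hcont.continuousOn
    exact ⟨_, dist_pos.2 (hne p hp), fun q hq => hmin hq⟩

end PS.M1a

namespace PS
open PS.M1a

theorem fibres_of_drawable {V : Type} [Fintype V] (G : SimpleGraph V) (hd : Drawable G) :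
    ∃ fib : V → Set (ℤ × ℤ), (∀ v, (fib v).Finite) ∧ (∀ v, (Lat.induce (fib v)).Connected) ∧
      (∀ u v, u ≠ v → Disjoint (fib u) (fib v)) ∧
      (∀ u v, u ≠ v → ((∃ a ∈ fib u, ∃ b ∈ fib v, Lat.Adj a b) ↔ G.Adj u v)) := by
  classical
  obtain ⟨f, γ, hf, -, hv, he⟩ := hd
  set φ : ℂ → ℝ × ℝ := fun z => (z.re, z.im) with hφ
  have hφc : Continuous φ := by
    simp only [hφ]
    exact Complex.continuous_re.prodMk Complex.continuous_im
  have hφi : Function.Injective φ := by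
    intro z w h
    simp only [hφ, Prod.mk.injEq] at h
    exact Complex.ext h.1 h.2
  set p : V → ℝ × ℝ := fun v => φ (f v) with hp
  set g : ∀ u v, G.Adj u v → unitInterval → ℝ × ℝ := fun u v h t => φ (γ u v h t) with hg
  have hgc : ∀ u v h, Continuous (g u v h) := fun u v h => hφc.comp (γ u v h).continuous
  have g0 : ∀ u v h, g u v h 0 = p u := fun u v h => by simp [hg, hp]
  have g1 : ∀ u v h, g u v h 1 = p v := fun u v h => by simp [hg, hp]
  have hpi : ∀ u v, u ≠ v → p u ≠ p v := fun u v h h' => h (hf (hφi h'))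
  -- distance of vertices
  obtain ⟨r1, hr1, H1⟩ := fin_eps (ι := V × V)
    (fun i e => i.1 ≠ i.2 → 4 * e ≤ dist (p i.1) (p i.2))
    (fun i a b hab h hne => by linarith [h hne])
    (fun i => by
      by_cases hne : i.1 = i.2
      · exact ⟨1, one_pos, fun h => absurd hne h⟩
      · have := dist_pos.2 (hpi _ _ hne)
        exact ⟨dist (p i.1) (p i.2) / 4, by positivity, fun _ => by linarith⟩)
  -- distance of an arc and another vertex
  obtain ⟨r2, hr2, H2⟩ := fin_eps (ι := V × V × V)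
    (fun i e => ∀ h : G.Adj i.1 i.2.1, i.2.2 ≠ i.1 → i.2.2 ≠ i.2.1 → ∀ t,
      4 * e ≤ dist (g i.1 i.2.1 h t) (p i.2.2))
    (fun i a b hab H h h1 h2 t => by linarith [H h h1 h2 t])
    (fun i => by
      by_cases hh : G.Adj i.1 i.2.1 ∧ i.2.2 ≠ i.1 ∧ i.2.2 ≠ i.2.1
      · obtain ⟨h, h1, h2⟩ := hh
        obtain ⟨e, he0, hE⟩ := pos_dist Set.univ isClosed_univ (g i.1 i.2.1 h)
          (fun _ => p i.2.2) (hgc _ _ _) continuous_const (by
            rintro q - hq
            rcases hv _ _ h q.1 i.2.2 (hφi hq) with h3 | h3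
            · exact h1 h3
            · exact h2 h3)
        exact ⟨e / 4, by positivity, fun _ _ _ t => by linarith [hE (t, t) (Set.mem_univ _)]⟩
      · exact ⟨1, one_pos, fun h h1 h2 => absurd ⟨h, h1, h2⟩ hh⟩)
  set r := min r1 r2 with hr
  have hr0 : 0 < r := lt_min hr1 hr2
  have hrr1 : r ≤ r1 := min_le_left _ _
  have hrr2 : r ≤ r2 := min_le_right _ _
  -- distance of two arcs away from their ends
  obtain ⟨d, hd0, H3⟩ := fin_eps (ι := (V × V) × (V × V))
    (fun i e => ∀ (h : G.Adj i.1.1 i.1.2) (h' : G.Adj i.2.1 i.2.2),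
      s(i.1.1, i.1.2) ≠ s(i.2.1, i.2.2) → ∀ s t,
      r / 2 ≤ dist (g _ _ h s) (p i.1.1) → r / 2 ≤ dist (g _ _ h s) (p i.1.2) →
      e ≤ dist (g _ _ h s) (g _ _ h' t))
    (fun i a b hab H h h' hn s t a1 a2 => hab.trans (H h h' hn s t a1 a2))
    (fun i => by
      by_cases hh : G.Adj i.1.1 i.1.2 ∧ G.Adj i.2.1 i.2.2 ∧ s(i.1.1, i.1.2) ≠ s(i.2.1, i.2.2)
      · obtain ⟨h, h', hn⟩ := hh
        obtain ⟨e, he0, hE⟩ := pos_dist
          {q | r / 2 ≤ dist (g _ _ h q.1) (p i.1.1) ∧ r / 2 ≤ dist (g _ _ h q.1) (p i.1.2)}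
          (by
            have c1 := hgc _ _ h
            refine IsClosed.and ?_ ?_
            · exact isClosed_le continuous_const (by fun_prop)
            · exact isClosed_le continuous_const (by fun_prop))
          (g _ _ h) (g _ _ h') (hgc _ _ _) (hgc _ _ _) (by
            rintro q ⟨q1, q2⟩ hq
            obtain ⟨w, hw, -, hw'⟩ := he _ _ _ _ h h' q.1 q.2 (hφi hq) hn
            have hw2 : g _ _ h q.1 = p w := by simp only [hg, hp, hw']
            rw [hw2] at q1 q2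
            rcases hw with rfl | rfl
            · rw [dist_self] at q1; linarith
            · rw [dist_self] at q2; linarith)
        exact ⟨e, he0, fun _ _ _ s t a1 a2 => hE (s, t) ⟨a1, a2⟩⟩
      · exact ⟨1, one_pos, fun h h' h1 => absurd ⟨h, h', h1⟩ hh⟩)
  obtain ⟨R, hR⟩ := exists_nat_gt (max 10 (10 * r / d))
  have hR10 : (10 : ℝ) < R := lt_of_le_of_lt (le_max_left _ _) hR
  have hRd : 10 * r / d < R := lt_of_le_of_lt (le_max_right _ _) hR
  set N : ℝ := R / r with hN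
  have hN0 : 0 < N := by positivity
  have hNr : N * r = R := by rw [hN]; field_simp
  have hNd : 10 < N * d := by
    rw [div_lt_iff₀ hd0] at hRd
    rw [hN, div_mul_eq_mul_div, lt_div_iff₀ hr0]
    exact hRd
  have hdist : ∀ a b : ℝ × ℝ, dist (N • a) (N • b) = N * dist a b := by
    intro a b
    rw [dist_smul₀, Real.norm_of_nonneg hN0.le]
  refine scaled G (fun v => N • p v) (fun u v h t => N • g u v h t) R ?_ ?_ ?_ ?_ ?_ ?_
  · intro u v h
    exact (hgc u v h).const_smul N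
  · intro u v h; simp only [g0]
  · intro u v h; simp only [g1]
  · intro u v huv
    simp only [hdist]
    have h4 := H1 (u, v) huv
    simp only at h4
    have : N * (4 * r) ≤ N * dist (p u) (p v) :=
      mul_le_mul_of_nonneg_left (by linarith) hN0.le
    nlinarith
  · intro u v h w t hwu hwv
    simp only [hdist]
    have h4 := H2 (u, v, w) h hwu hwv t
    simp only at h4
    have : N * (4 * r) ≤ N * dist (g u v h t) (p w) :=
      mul_le_mul_of_nonneg_left (by linarith) hN0.le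
    nlinarith
  · intro u v x y h h' s t hne a1 a2 a3 a4
    simp only [hdist] at a1 a2 a3 a4 ⊢
    have key : ∀ z : ℝ, (R : ℝ) - 5 ≤ N * z → r / 2 ≤ z := by
      intro z hz
      by_contra hlt
      push Not at hlt
      have : N * z < N * (r / 2) := mul_lt_mul_of_pos_left hlt hN0
      have e : N * (r / 2) = R / 2 := by rw [← hNr]; ring
      rw [e] at this
      linarith
    have h4 := H3 ((u, v), (x, y)) h h' hne s t (key _ a1) (key _ a2)
    simp only at h4
    have : N * d ≤ N * dist (g u v h s) (g x y h' t) :=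
      mul_le_mul_of_nonneg_left h4 hN0.le
    linarith

end PS
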