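import Pool.Agent.Lib_helper70.PS.Metric

set_option autoImplicit false

/-!
Module M4b for MP_8191b7_co: the hub.
-/

namespace PS

/-- geodesics as sequences -/
theorem exists_geod {W : Type} {H : SimpleGraph W} (hH : H.Connected) (u v : W) :
    ∃ g : ℕ → W, g 0 = u ∧ g (H.dist u v) = v ∧
      (∀ i, i < H.dist u v → H.Adj (g i) (g (i + 1))) ∧
      (∀ i, i ≤ H.dist u v → H.dist u (g i) = i ∧ H.dist (g i) v = H.dist u v - i) := by
  obtain ⟨w, hw⟩ := hH.exists_walk_length_eq_dist u v
  refine ⟨fun i => w.getVert i, by simp, by rw [← hw]; simp, ?_, ?_⟩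
  · intro i hi
    exact w.adj_getVert_succ (by omega)
  · intro i hi
    have h1 : H.dist u (w.getVert i) ≤ i := by
      refine (SimpleGraph.dist_le (w.take i)).trans ?_
      rw [SimpleGraph.Walk.take_length]
      exact min_le_left _ _
    have h2 : H.dist (w.getVert i) v ≤ H.dist u v - i := by
      refine (SimpleGraph.dist_le (w.drop i)).trans ?_
      rw [SimpleGraph.Walk.drop_length]
      omega
    have h3 := hH.dist_triangle (u := u) (v := w.getVert i) (w := v)
    show H.dist u (w.getVert i) = i ∧ H.dist (w.getVert i) v = H.dist u v - i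
    omega

theorem hub {W : Type} [Finite W] {G : SimpleGraph W} (hG : G.Connected) {C : Set W} (k : ℕ)
    {f : W → ℕ} (hf : Lip G f) (hoff : ∀ x, x ∉ C → f x ≤ k + 1) {x x' : W} {n n' : ℕ}
    {v v' : ℕ → W} (hv : Vert G C f x n v) (hv' : Vert G C f x' n' v') {a a' : ℕ}
    (ha : a < n) (ha' : a' < n')
    (h1 : 4 * k + 5 ≤ f (v a)) (h2 : f (v a) ≤ 7 * k + 8) (h3 : f (v' a') ≤ 7 * k + 8)
    (hd : G.dist (v a) (v' a') ≤ 2 * k + 2) :
    ∃ (X : Set W) (f' : W → ℕ), X ⊆ C ∧ Conn G X ∧ v (n - 1) ∈ X ∧ v' (n' - 1) ∈ X ∧ Lip G f' ∧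
      (∀ x, x ∉ C → f' x = f x) ∧ (∀ x ∈ X, f' x ≤ 7 * k + 8) ∧
      ∀ s, Set.ncard {x | x ∈ X ∧ f' x = s} ≤ 4 := by
  classical
  have hdl : ∀ x y, f x ≤ f y + G.dist x y := hf.dist hG
  set q0 := v a with hq0
  set c : W → ℕ := fun y => f q0 - (4 * k + 5) + G.dist q0 y with hc
  have hcLip : ∀ x y, G.Adj x y → c x ≤ c y + 1 := by
    intro x y hxy
    have t := hG.dist_triangle (u := q0) (v := y) (w := x)
    rw [SimpleGraph.dist_eq_one_iff_adj.2 hxy.symm] at t
    simp only [hc]
    omega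
  have hSC : ∀ y, c y < f y → y ∈ C := by
    intro y hy
    by_contra hyC
    have e1 := hoff y hyC
    have e2 := hdl q0 y
    simp only [hc] at hy
    omega
  have star : ∀ y z, c y < f y → G.dist q0 z + G.dist z y = G.dist q0 y → c z < f z := by
    intro y z hy hz
    have e2 := hdl y z
    rw [SimpleGraph.dist_comm] at e2
    simp only [hc] at hy ⊢
    omega
  have hvd : ∀ i, a ≤ i → i < n → G.dist q0 (v i) = i - a := by
    intro i hai hin
    have up : G.dist q0 (v i) ≤ i - a := by
      induction i, hai using Nat.le_induction with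
      | base => simp [hq0]
      | succ i hi ih =>
        have e1 := ih (by omega)
        have e2 := hG.dist_triangle (u := q0) (v := v i) (w := v (i + 1))
        rw [SimpleGraph.dist_eq_one_iff_adj.2 (hv.adj i (by omega))] at e2
        omega
    have e1 := hdl q0 (v i)
    have e2 := hv.lev i (by omega)
    have e3 : f q0 + a = f x := hv.lev a (by omega)
    omega
  have hq1 : c (v' a') < f (v' a') := by
    have e1 := hdl q0 (v' a')
    simp only [hc]
    omega
  -- the last index of the second path in the hub region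
  obtain ⟨b, hb1, hb2, hb3, hb4⟩ : ∃ b, a' ≤ b ∧ b < n' ∧ c (v' b) < f (v' b) ∧
      ∀ i, b < i → i < n' → ¬ c (v' i) < f (v' i) := by
    refine ⟨Nat.findGreatest (fun i => c (v' i) < f (v' i)) (n' - 1), ?_, ?_, ?_, ?_⟩
    · exact Nat.le_findGreatest (by omega) hq1
    · have := Nat.findGreatest_le (P := fun i => c (v' i) < f (v' i)) (n' - 1)
      omega
    · exact Nat.findGreatest_spec (P := fun i => c (v' i) < f (v' i)) (m := a') (by omega) hq1
    · intro i hi1 hi2
      exact Nat.findGreatest_is_greatest (P := fun i => c (v' i) < f (v' i)) hi1 (by omega)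
  obtain ⟨g, hg0, hgm, hgadj, hgd⟩ := exists_geod hG q0 (v' b)
  set m := G.dist q0 (v' b) with hm
  have hgc : ∀ i, i ≤ m → c (g i) < f (g i) := by
    intro i hi
    refine star (v' b) (g i) hb3 ?_
    have := hgd i hi
    omega
  have hgcv : ∀ i, i ≤ m → c (g i) = f q0 - (4 * k + 5) + i := by
    intro i hi
    simp only [hc, (hgd i hi).1]
  refine ⟨v '' {i | a ≤ i ∧ i < n} ∪ (g '' {i | 0 ≤ i ∧ i < m + 1} ∪ v' '' {i | b ≤ i ∧ i < n'}),
    fun y => min (f y) (c y), ?_, ?_, ?_, ?_, ?_, ?_, ?_, ?_⟩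
  · rintro y (⟨i, ⟨-, hi⟩, rfl⟩ | ⟨i, ⟨-, hi⟩, rfl⟩ | ⟨i, ⟨-, hi⟩, rfl⟩)
    · exact hv.mem i hi
    · exact hSC _ (hgc i (by omega))
    · exact hv'.mem i hi
  · refine (conn_path ha (fun i _ hi => hv.adj i (by omega))).union
      ((conn_path (by omega) (fun i _ hi => hgadj i (by omega))).union
        (conn_path hb2 (fun i _ hi => hv'.adj i (by omega))) ?_) ?_
    · exact ⟨g m, ⟨m, ⟨by omega, by omega⟩, rfl⟩, v' b, ⟨b, ⟨le_rfl, hb2⟩, rfl⟩, Or.inl hgm⟩
    · exact ⟨v a, ⟨a, ⟨le_rfl, ha⟩, rfl⟩, g 0, Or.inl ⟨0, ⟨le_rfl, by omega⟩, rfl⟩, Or.inl hg0.symm⟩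
  · exact Or.inl ⟨n - 1, ⟨by omega, by omega⟩, rfl⟩
  · exact Or.inr (Or.inr ⟨n' - 1, ⟨by omega, by omega⟩, rfl⟩)
  · intro y z hyz
    have e1 := hf y z hyz
    have e2 := hcLip y z hyz
    show min (f y) (c y) ≤ min (f z) (c z) + 1
    omega
  · intro y hy
    have : ¬ c y < f y := fun h => hy (hSC y h)
    show min (f y) (c y) = f y
    omega
  · rintro y (⟨i, ⟨hi1, hi⟩, rfl⟩ | ⟨i, ⟨-, hi⟩, rfl⟩ | ⟨i, ⟨hi1, hi⟩, rfl⟩)
    · have e1 := hv.lev i (by omega)
      have e2 : f q0 + a = f x := hv.lev a (by omega)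
      show min (f (v i)) (c (v i)) ≤ _
      omega
    · have e1 := hgcv i (by omega)
      have e2 := hgcv m le_rfl
      have e3 := hgc m le_rfl
      have e4 := hv'.lev b (by omega)
      have e5 := hv'.lev a' (by omega)
      rw [hgm] at e3 e2
      show min (f (g i)) (c (g i)) ≤ _
      omega
    · have e4 := hv'.lev i (by omega)
      have e5 := hv'.lev a' (by omega)
      show min (f (v' i)) (c (v' i)) ≤ _
      omega
  · intro s
    have hsub : {y | y ∈ v '' {i | a ≤ i ∧ i < n} ∪ (g '' {i | 0 ≤ i ∧ i < m + 1} ∪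
        v' '' {i | b ≤ i ∧ i < n'}) ∧ min (f y) (c y) = s} ⊆
        {v (f x - s), v (s - (f q0 - (4 * k + 5)) + a), g (s - (f q0 - (4 * k + 5))),
          v' (f x' - s)} := by
      rintro y ⟨(⟨i, ⟨hi1, hi⟩, rfl⟩ | ⟨i, ⟨-, hi⟩, rfl⟩ | ⟨i, ⟨hi1, hi⟩, rfl⟩), hs⟩
      · have e1 := hv.lev i (by omega)
        have e2 : c (v i) = f q0 - (4 * k + 5) + (i - a) := by simp only [hc, hvd i hi1 hi]
        rcases le_total (f (v i)) (c (v i)) with h | h
        · left
          congr 1
          omega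
        · right; left
          congr 1
          omega
      · have e1 := hgcv i (by omega)
        have e2 := hgc i (by omega)
        right; right; left
        congr 1
        omega
      · rcases Nat.eq_or_lt_of_le hi1 with h | h
        · right; right; left
          have e1 := hgcv m le_rfl
          have e2 := hgc m le_rfl
          rw [hgm] at e1 e2
          rw [← h] at hs
          rw [← h, ← hgm]
          congr 1
          omega
        · right; right; right
          have e1 := hb4 i h hi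
          have e2 := hv'.lev i (by omega)
          show v' i = v' (f x' - s)
          congr 1
          omega
    refine (Set.ncard_le_ncard hsub (Set.toFinite _)).trans ?_
    refine (Set.ncard_insert_le _ _).trans ?_
    have r1 := Set.ncard_insert_le (v (s - (f q0 - (4 * k + 5)) + a))
      ({g (s - (f q0 - (4 * k + 5))), v' (f x' - s)} : Set W)
    have r2 := Set.ncard_insert_le (g (s - (f q0 - (4 * k + 5)))) ({v' (f x' - s)} : Set W)
    rw [Set.ncard_singleton] at r2
    omega

end PS
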