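import Pool.Agent.Lib_helper96.PS.M1a

set_option autoImplicit false

/-!
Module M5 for MP_8191b7_co: iteration of the step lemma; every region is split off one connected
part at a time, which yields the certificate.
-/

namespace PS

/-- the step lemma as a hypothesis: in every region one can choose a connected part `X` touching
the outside and new levels, such that the remaining pieces see at most four label changes -/
def StepHyp {W : Type} (π : ℤ × ℤ → W) (o : W) (b m : ℕ) : Prop :=
  ∀ C : Set W, o ∉ C → ((Quo π).induce C).Connected → ((Quo π).induce Cᶜ).Connected →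
    ∀ lab : W → W, chg π lab C ≤ 4 →
    ∀ μ : W → ℕ, (∀ v, μ v < b) → (∀ u v, (Quo π).Adj u v → μ u ≤ μ v + 1) →
    ∃ (X : Set W) (μ' : W → ℕ), X ⊆ C ∧ ((Quo π).induce X).Connected ∧
      (∃ x ∈ X, ∃ z, z ∉ C ∧ (Quo π).Adj x z) ∧
      (∀ v, μ' v < b) ∧ (∀ u v, (Quo π).Adj u v → μ' u ≤ μ' v + 1) ∧
      (∀ v, v ∉ C → μ' v = μ v) ∧ (∀ n, Set.ncard {v | v ∈ X ∧ μ' v = n} ≤ m) ∧
      ∀ C' ⊆ C, Disjoint C' X → ((Quo π).induce C').Connected →
        (∀ c ∈ C', ∀ q, (Quo π).Adj c q → q ∈ C' ∨ q ∈ X ∨ q ∉ C) →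
        ∀ lab' : W → W, (∀ p, p ∉ C → lab' p = lab p) → (∀ p ∈ X, ∀ q ∈ X, lab' p = lab' q) →
          chg π lab' C' ≤ 4

namespace M5

open SimpleGraph PS.M1a

variable {W : Type}

/-- `C` is a component of `U` -/
def IsComp (G : SimpleGraph W) (U C : Set W) : Prop :=
  C ⊆ U ∧ (G.induce C).Connected ∧ ∀ c ∈ C, ∀ q, G.Adj c q → q ∈ C ∨ q ∉ U

theorem subset_of_conn {G : SimpleGraph W} {C C' : Set W} (hc : (G.induce C').Connected)
    (hn : (C' ∩ C).Nonempty) (hcl : ∀ c ∈ C, ∀ q ∈ C', G.Adj c q → q ∈ C) : C' ⊆ C := by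
  obtain ⟨a, haC', haC⟩ := hn
  intro q hq
  obtain ⟨w⟩ := hc.preconnected ⟨a, haC'⟩ ⟨q, hq⟩
  have key : ∀ (x y : C') (_ : (G.induce C').Walk x y), x.1 ∈ C → y.1 ∈ C := by
    intro x y w
    induction w with
    | nil => exact id
    | cons hadj w ih =>
      rename_i u v z
      intro hu
      exact ih (hcl _ hu _ v.2 (by simpa using hadj))
  exact key _ _ w haC

theorem exists_comp (G : SimpleGraph W) (U : Set W) (u : W) (hu : u ∈ U) :
    ∃ C, IsComp G U C ∧ u ∈ C := by
  classical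
  set C : Set W := {v | ∃ hv : v ∈ U, (G.induce U).Reachable ⟨u, hu⟩ ⟨v, hv⟩} with hC
  have huC : u ∈ C := ⟨hu, Reachable.refl _⟩
  refine ⟨C, ⟨fun v hv => hv.1, ?_, ?_⟩, huC⟩
  · refine G.induce_connected_of_patches u huC ?_
    rintro v ⟨hv, ⟨w⟩⟩
    have key : ∀ (x y : U) (_ : (G.induce U).Walk x y) (hx : x.1 ∈ C),
        ∃ hy : y.1 ∈ C, (G.induce C).Reachable ⟨x.1, hx⟩ ⟨y.1, hy⟩ := by
      intro x y w
      induction w with
      | nil => exact fun hx => ⟨hx, Reachable.refl _⟩
      | cons hadj w ih =>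
        rename_i a b z
        intro ha
        have hb : b.1 ∈ C := ⟨b.2, ha.2.trans hadj.reachable⟩
        obtain ⟨hy, hr⟩ := ih hb
        refine ⟨hy, Reachable.trans ?_ hr⟩
        apply SimpleGraph.Adj.reachable
        simpa using hadj
    obtain ⟨hy, hr⟩ := key _ _ w huC
    exact ⟨C, subset_rfl, huC, hy, hr⟩
  · rintro c ⟨hcU, hcr⟩ q hq
    by_cases hqU : q ∈ U
    · left
      refine ⟨hqU, hcr.trans ?_⟩
      apply SimpleGraph.Adj.reachable
      simpa using hq
    · exact Or.inr hqU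

theorem compl_conn {G : SimpleGraph W} {C X C' : Set W} (hCc : (G.induce Cᶜ).Connected)
    (hC : (G.induce C).Connected)
    (hXC : X ⊆ C) (hX : (G.induce X).Connected) (hXt : ∃ x ∈ X, ∃ z, z ∉ C ∧ G.Adj x z)
    (hC'C : C' ⊆ C) (hdis : Disjoint C' X)
    (hcl : ∀ c ∈ C', ∀ q, G.Adj c q → q ∈ C' ∨ q ∈ X ∨ q ∉ C) :
    (G.induce C'ᶜ).Connected := by
  obtain ⟨x, hx, z, hz, hxz⟩ := hXt
  have sX : X ⊆ C'ᶜ := fun a ha ha' => Set.disjoint_left.1 hdis ha' ha
  have sC : Cᶜ ⊆ C'ᶜ := Set.compl_subset_compl.2 hC'C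
  refine G.induce_connected_of_patches x (sX hx) ?_
  have rX : ∀ y (hy : y ∈ X), (G.induce C'ᶜ).Reachable ⟨x, sX hx⟩ ⟨y, sX hy⟩ := fun y hy =>
    reachable_mono sX hx hy (hX.preconnected _ _)
  intro v hv
  refine ⟨C'ᶜ, subset_rfl, sX hx, hv, ?_⟩
  by_cases hvC : v ∈ C
  · obtain ⟨w⟩ := hC.preconnected ⟨v, hvC⟩ ⟨x, hXC hx⟩
    have key : ∀ (a b : C) (_ : (G.induce C).Walk a b), b.1 ∈ X → ∀ ha : a.1 ∉ C',
        ∃ y, ∃ hy : y ∈ X, (G.induce C'ᶜ).Reachable ⟨a.1, ha⟩ ⟨y, sX hy⟩ := by
      intro a b w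
      induction w with
      | nil => exact fun hb ha => ⟨_, hb, Reachable.refl _⟩
      | cons hadj w ih =>
        rename_i a b z
        intro hz' ha
        have hadj' : G.Adj a.1 b.1 := by simpa using hadj
        by_cases haX : a.1 ∈ X
        · exact ⟨a.1, haX, Reachable.refl _⟩
        have hb : b.1 ∉ C' := by
          intro hb
          rcases hcl b.1 hb a.1 hadj'.symm with h | h | h
          · exact ha h
          · exact haX h
          · exact h a.2
        obtain ⟨y, hy, hr⟩ := ih hz' hb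
        refine ⟨y, hy, Reachable.trans ?_ hr⟩
        apply SimpleGraph.Adj.reachable
        simpa using hadj'
    obtain ⟨y, hy, hr⟩ := key _ _ w hx hv
    exact (rX y hy).trans hr.symm
  · have r1 : (G.induce C'ᶜ).Reachable ⟨x, sX hx⟩ ⟨z, sC hz⟩ := by
      apply SimpleGraph.Adj.reachable
      simpa using hxz
    exact r1.trans (reachable_mono sC hz hvC (hCc.preconnected ⟨z, hz⟩ ⟨v, hvC⟩))

theorem chg_congr {ι : Type} (π : ℤ × ℤ → W) (U C : Set W) (hC : IsComp (Quo π) U C)
    (lab lab' : W → ι) (h : ∀ v, v ∉ U → lab' v = lab v) : chg π lab' C = chg π lab C := by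
  unfold chg
  congr 1
  ext ⟨a, j⟩
  have key : ∀ j, π a ∈ C → π (a + dir j) ∉ C → lab' (π (a + dir j)) = lab (π (a + dir j)) := by
    intro j h1 h2
    apply h
    have hadj : (Quo π).Adj (π a) (π (a + dir j)) :=
      ⟨fun he => h2 (he ▸ h1), a, a + dir j, ⟨j, rfl⟩, rfl, rfl⟩
    rcases hC.2.2 _ h1 _ hadj with h3 | h3
    · exact absurd h3 h2
    · exact h3
  simp only [Set.mem_ofPred_eq]
  constructor
  · rintro ⟨h1, h2, h3, h4⟩
    exact ⟨h1, h2, h3, by rwa [key _ h1 h2, key _ h1 h3] at h4⟩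
  · rintro ⟨h1, h2, h3, h4⟩
    exact ⟨h1, h2, h3, by rwa [key _ h1 h2, key _ h1 h3]⟩

/-- the state of the iteration: `U` is the set of vertices not yet put into a part -/
structure St (π : ℤ × ℤ → W) (o : W) (b m : ℕ) (U : Set W) (lab : W → W) (μ : W → ℕ)
    (A : W → Finset W) (par : W → W) (rk : W → ℕ) : Prop where
  o_nmem : o ∉ U
  mu_lt : ∀ v, μ v < b
  lip : ∀ u v, (Quo π).Adj u v → μ u ≤ μ v + 1
  cnt : ∀ i n, Set.ncard {v | v ∉ U ∧ lab v = i ∧ μ v = n} ≤ m
  card : ∀ i, (A i).card ≤ 4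
  edge : ∀ u v, u ∉ U → v ∉ U → (Quo π).Adj u v →
    lab u = lab v ∨ lab u ∈ A (lab v) ∨ lab v ∈ A (lab u)
  tree : ∀ i, A i = ∅ ∨ (i ∉ U ∧ par i ∉ U ∧ rk (par i) < rk i ∧
    ∀ x ∈ A i, x = par i ∨ x ∈ A (par i))
  labU : ∀ v, v ∉ U → lab v ∉ U
  comp : ∀ C, IsComp (Quo π) U C → ((Quo π).induce Cᶜ).Connected ∧ chg π lab C ≤ 4 ∧
    ∃ p, p ∉ U ∧ ∀ x ∈ C, ∀ z, z ∉ C → (Quo π).Adj x z → lab z = p ∨ lab z ∈ A p

theorem step_state [Fintype W] {π : ℤ × ℤ → W} {o : W} {b m : ℕ} (hstep : StepHyp π o b m)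
    (hvis : ∀ C : Set W, o ∉ C → ((Quo π).induce C).Connected → ((Quo π).induce Cᶜ).Connected →
      ∀ lab : W → W, chg π lab C ≤ 4 →
      Set.ncard {l | ∃ x ∈ C, ∃ z, z ∉ C ∧ (Quo π).Adj x z ∧ lab z = l} ≤ 4)
    {U : Set W} {lab : W → W} {μ : W → ℕ} {A : W → Finset W} {par : W → W} {rk : W → ℕ}
    (hs : St π o b m U lab μ A par rk) (hU : U.Nonempty) :
    ∃ (U' : Set W) (lab' : W → W) (μ' : W → ℕ) (A' : W → Finset W) (par' : W → W) (rk' : W → ℕ),
      U' ⊂ U ∧ St π o b m U' lab' μ' A' par' rk' := by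
  classical
  obtain ⟨u, hu⟩ := hU
  obtain ⟨C, hC, -⟩ := exists_comp (Quo π) U u hu
  obtain ⟨hCc, hchg, p, hpU, hp⟩ := hs.comp C hC
  have hoC : o ∉ C := fun h => hs.o_nmem (hC.1 h)
  obtain ⟨X, μ', hXC, hX, hXt, hμ'b, hμ'l, hμ'e, hcnt, hgood⟩ :=
    hstep C hoC hC.2.1 hCc lab hchg μ hs.mu_lt hs.lip
  obtain ⟨x0, hx0, -⟩ := id hXt
  have hx0U : x0 ∈ U := hC.1 (hXC hx0)
  set Vis : Set W := {l | ∃ x ∈ C, ∃ z, z ∉ C ∧ (Quo π).Adj x z ∧ lab z = l} with hVis
  have hVis4 : Vis.ncard ≤ 4 := hvis C hoC hC.2.1 hCc lab hchg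
  set VF : Finset W := Vis.toFinite.toFinset with hVF
  have hVFm : ∀ l, l ∈ VF ↔ l ∈ Vis := fun l => by rw [hVF, Set.Finite.mem_toFinset]
  have hVFc : VF.card ≤ 4 := by rwa [hVF, ← Set.ncard_eq_toFinset_card]
  have hpx : p ≠ x0 := by rintro rfl; exact hpU hx0U
  have hVisp : ∀ l ∈ VF, l = p ∨ l ∈ A p := by
    intro l hl
    rw [hVFm] at hl
    obtain ⟨x, hx, z, hz, hxz, rfl⟩ := hl
    exact hp x hx z hz hxz
  have hUout : ∀ x ∈ C, ∀ z, z ∉ C → (Quo π).Adj x z → z ∉ U := by
    intro x hx z hz hxz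
    rcases hC.2.2 x hx z hxz with h | h
    · exact absurd h hz
    · exact h
  have nU : ∀ v, v ∉ U \ X → v ∉ U ∨ v ∈ X := by
    intro v hv
    by_cases h : v ∈ U
    · right
      by_contra h'
      exact hv ⟨h, h'⟩
    · exact Or.inl h
  have nX : ∀ v, v ∉ U → v ∉ X := fun v hv hX' => hv (hC.1 (hXC hX'))
  have lx : ∀ v, v ∉ U → lab v ≠ x0 := by
    intro v hv he
    exact hs.labU v hv (he ▸ hx0U)
  refine ⟨U \ X, fun v => if v ∈ X then x0 else lab v, μ', fun i => if i = x0 then VF else A i,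
    fun i => if i = x0 then p else par i, fun i => if i = x0 then rk p + 1 else rk i, ?_, ?_⟩
  · refine ⟨Set.sdiff_subset, fun h => ?_⟩
    exact (h hx0U).2 hx0
  refine ⟨fun h => hs.o_nmem h.1, hμ'b, hμ'l, ?_, ?_, ?_, ?_, ?_, ?_⟩
  · -- cnt
    intro i n
    by_cases hi : i = x0
    · refine le_trans (Set.ncard_le_ncard ?_ (Set.toFinite _)) (hcnt n)
      rintro v ⟨h1, h2, h3⟩
      refine ⟨?_, h3⟩
      by_contra hvX
      simp only [if_neg hvX] at h2
      rcases nU v h1 with h | h
      · exact lx v h (h2.trans hi)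
      · exact hvX h
    · refine le_trans (Set.ncard_le_ncard ?_ (Set.toFinite _)) (hs.cnt i n)
      rintro v ⟨h1, h2, h3⟩
      have hvX : v ∉ X := by
        intro hvX
        simp only [if_pos hvX] at h2
        exact hi h2.symm
      simp only [if_neg hvX] at h2
      have hvU : v ∉ U := by
        rcases nU v h1 with h | h
        · exact h
        · exact absurd h hvX
      exact ⟨hvU, h2, by rw [← hμ'e v (fun h => hvU (hC.1 h)), h3]⟩
  · intro i
    by_cases hi : i = x0
    · simp only [if_pos hi]; exact hVFc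
    · simp only [if_neg hi]; exact hs.card i
  · -- edge
    intro v w hv hw hvw
    rcases nU v hv with hv | hv
    · rcases nU w hw with hw | hw
      · simp only [if_neg (nX v hv), if_neg (nX w hw), if_neg (lx v hv), if_neg (lx w hw)]
        exact hs.edge v w hv hw hvw
      · right; left
        simp only [if_neg (nX v hv), if_pos hw, if_true]
        rw [hVFm]
        exact ⟨w, hXC hw, v, fun h => hv (hC.1 h), hvw.symm, rfl⟩
    · rcases nU w hw with hw | hw
      · right; right
        simp only [if_neg (nX w hw), if_pos hv, if_true]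
        rw [hVFm]
        exact ⟨v, hXC hv, w, fun h => hw (hC.1 h), hvw, rfl⟩
      · left
        simp only [if_pos hv, if_pos hw]
  · -- tree
    intro i
    by_cases hi : i = x0
    · subst hi
      right
      simp only [if_true, if_neg hpx]
      exact ⟨fun h => h.2 hx0, fun h => hpU h.1, by omega, hVisp⟩
    · simp only [if_neg hi]
      rcases hs.tree i with h | ⟨h1, h2, h3, h4⟩
      · exact Or.inl h
      · right
        have : par i ≠ x0 := by intro he; exact h2 (he ▸ hx0U)
        simp only [if_neg this]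
        exact ⟨fun h => h1 h.1, fun h => h2 h.1, h3, h4⟩
  · -- labU
    intro v hv
    rcases nU v hv with hv | hv
    · simp only [if_neg (nX v hv)]
      exact fun h => hs.labU v hv h.1
    · simp only [if_pos hv]
      exact fun h => h.2 hx0
  · -- components
    intro C' hC'
    by_cases hint : (C' ∩ C).Nonempty
    · have hsub : C' ⊆ C := by
        refine subset_of_conn hC'.2.1 hint ?_
        intro c hc q hq hcq
        rcases hC.2.2 c hc q hcq with h | h
        · exact h
        · exact absurd (hC'.1 hq).1 h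
      have hdis : Disjoint C' X := Set.disjoint_left.2 fun a ha => (hC'.1 ha).2
      have hcl : ∀ c ∈ C', ∀ q, (Quo π).Adj c q → q ∈ C' ∨ q ∈ X ∨ q ∉ C := by
        intro c hc q hcq
        rcases hC'.2.2 c hc q hcq with h | h
        · exact Or.inl h
        · rcases nU q h with h | h
          · exact Or.inr (Or.inr fun h' => h (hC.1 h'))
          · exact Or.inr (Or.inl h)
      refine ⟨compl_conn hCc hC.2.1 hXC hX hXt hsub hdis hcl, ?_, x0, fun h => h.2 hx0, ?_⟩
      · refine hgood C' hsub hdis hC'.2.1 hcl _ ?_ ?_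
        · intro q hq
          simp only [if_neg (fun h => hq (hXC h) : q ∉ X)]
        · intro q hq r hr
          simp only [if_pos hq, if_pos hr]
      · intro x hx z hz hxz
        simp only [if_true]
        rcases hcl x hx z hxz with h | h | h
        · exact absurd h hz
        · left; simp only [if_pos h]
        · right
          simp only [if_neg (fun h' => h (hXC h') : z ∉ X)]
          rw [hVFm]
          exact ⟨x, hsub hx, z, h, hxz, rfl⟩
    · have hnot : ∀ c ∈ C', c ∉ C := fun c hc hc' => hint ⟨c, hc, hc'⟩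
      have hC'' : IsComp (Quo π) U C' := by
        refine ⟨fun c hc => (hC'.1 hc).1, hC'.2.1, ?_⟩
        intro c hc q hcq
        rcases hC'.2.2 c hc q hcq with h | h
        · exact Or.inl h
        · rcases nU q h with h | h
          · exact Or.inr h
          · exfalso
            rcases hC.2.2 q (hXC h) c hcq.symm with h' | h'
            · exact hnot c hc h'
            · exact h' (hC'.1 hc).1
      obtain ⟨k1, k2, q, hqU, hq⟩ := hs.comp C' hC''
      refine ⟨k1, ?_, q, fun h => hqU h.1, ?_⟩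
      · rw [chg_congr π U C' hC'' lab _ (fun v hv => by simp only [if_neg (nX v hv)])]
        exact k2
      · intro x hx z hz hxz
        have hzU : z ∉ U := by
          rcases hC''.2.2 x hx z hxz with h | h
          · exact absurd h hz
          · exact h
        have hqx : q ≠ x0 := by rintro rfl; exact hqU hx0U
        simp only [if_neg (nX z hzU), if_neg hqx]
        exact hq x hx z hz hxz

theorem cert_of_state [Fintype W] {π : ℤ × ℤ → W} {o : W} {b m : ℕ} (hstep : StepHyp π o b m)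
    (hvis : ∀ C : Set W, o ∉ C → ((Quo π).induce C).Connected → ((Quo π).induce Cᶜ).Connected →
      ∀ lab : W → W, chg π lab C ≤ 4 →
      Set.ncard {l | ∃ x ∈ C, ∃ z, z ∉ C ∧ (Quo π).Adj x z ∧ lab z = l} ≤ 4) :
    ∀ (n : ℕ) (U : Set W) (lab : W → W) (μ : W → ℕ) (A : W → Finset W) (par : W → W) (rk : W → ℕ),
      U.ncard ≤ n → St π o b m U lab μ A par rk → Cert (Quo π) b m 4 := by
  classical
  intro n
  induction n with
  | zero =>
    intro U lab μ A par rk hn hs
    have hU : U = ∅ := by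
      have : U.ncard = 0 := by omega
      exact (Set.ncard_eq_zero (Set.toFinite _)).1 this
    subst hU
    refine ⟨W, inferInstance, lab, μ, A, par, rk, hs.mu_lt, hs.lip, ?_, hs.card, ?_, ?_⟩
    · intro i n
      simpa using hs.cnt i n
    · intro u v huv
      exact hs.edge u v (by simp) (by simp) huv
    · intro i
      rcases hs.tree i with h | ⟨-, -, h3, h4⟩
      · exact Or.inl h
      · exact Or.inr ⟨h3, h4⟩
  | succ n ih =>
    intro U lab μ A par rk hn hs
    rcases U.eq_empty_or_nonempty with hU | hU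
    · exact ih U lab μ A par rk (by simp [hU]) hs
    · obtain ⟨U', lab', μ', A', par', rk', hlt, hs'⟩ := step_state hstep hvis hs hU
      refine ih U' lab' μ' A' par' rk' ?_ hs'
      have := Set.ncard_lt_ncard hlt (Set.toFinite _)
      omega

theorem lat_reachable (a b : ℤ × ℤ) : Lat.Reachable a b := by
  obtain ⟨R, hR⟩ : ∃ R : ℕ, b ∈ Box a R := by
    refine ⟨(|b.1 - a.1| + |b.2 - a.2|).toNat, ?_, ?_⟩
    · have h1 := abs_nonneg (b.1 - a.1)
      have h2 := abs_nonneg (b.2 - a.2)
      omega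
    · have h1 := abs_nonneg (b.1 - a.1)
      have h2 := abs_nonneg (b.2 - a.2)
      omega
  have := (box_connected a R).preconnected ⟨a, mem_box_self a R⟩ ⟨b, hR⟩
  exact this.map (Embedding.induce (G := Lat) (Box a R)).toHom

theorem quo_reachable (π : ℤ × ℤ → W) (a b : ℤ × ℤ) : (Quo π).Reachable (π a) (π b) := by
  obtain ⟨w⟩ := lat_reachable a b
  induction w with
  | nil => exact Reachable.refl _
  | cons hadj w ih =>
    rename_i u v z
    refine Reachable.trans ?_ ih
    by_cases h : π u = π v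
    · rw [h]
    · exact SimpleGraph.Adj.reachable ⟨h, u, v, hadj, rfl, rfl⟩

theorem cert_of_step [Fintype W] {π : ℤ × ℤ → W} {o : W} (hM : Model π o) {b m : ℕ} (hb : 0 < b)
    (hm : 0 < m) (hstep : StepHyp π o b m)
    (hvis : ∀ C : Set W, o ∉ C → ((Quo π).induce C).Connected → ((Quo π).induce Cᶜ).Connected →
      ∀ lab : W → W, chg π lab C ≤ 4 →
      Set.ncard {l | ∃ x ∈ C, ∃ z, z ∉ C ∧ (Quo π).Adj x z ∧ lab z = l} ≤ 4) :
    Cert (Quo π) b m 4 := by
  classical
  have hsurj : ∀ p, ∃ a, π a = p := by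
    intro p
    obtain ⟨a, ha⟩ := (hM.conn p).nonempty
    exact ⟨a, ha⟩
  have hreach : ∀ p q, (Quo π).Reachable p q := by
    intro p q
    obtain ⟨a, rfl⟩ := hsurj p
    obtain ⟨b, rfl⟩ := hsurj q
    exact quo_reachable π a b
  refine cert_of_state hstep hvis _ {o}ᶜ (fun _ => o) (fun _ => 0) (fun _ => ∅) id (fun _ => 0)
    le_rfl ⟨by simp, fun _ => hb, fun _ _ _ => by simp, ?_, by simp, ?_, fun _ => Or.inl rfl,
      fun _ _ => by simp, ?_⟩
  · intro i n
    refine le_trans (Set.ncard_le_ncard (t := {o}) ?_ (Set.toFinite _)) (by simpa using (show 1 ≤ m from hm))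
    rintro v ⟨hv, -⟩
    simpa using hv
  · intro u v hu hv _
    exact Or.inl rfl
  · intro C hC
    have hoC : o ∉ C := fun h => (hC.1 h) rfl
    refine ⟨?_, ?_, o, by simp, fun _ _ _ _ _ => Or.inl rfl⟩
    · refine (Quo π).induce_connected_of_patches o hoC ?_
      intro v hv
      refine ⟨Cᶜ, subset_rfl, hoC, hv, ?_⟩
      obtain ⟨w⟩ := hreach v o
      have key : ∀ (a b : W) (_ : (Quo π).Walk a b), b = o → ∀ ha : a ∉ C,
          ((Quo π).induce Cᶜ).Reachable ⟨o, hoC⟩ ⟨a, ha⟩ := by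
        intro a b w
        induction w with
        | nil => rintro rfl ha; exact Reachable.refl _
        | cons hadj w ih =>
          rename_i a b z
          intro hz ha
          by_cases hb : b ∈ C
          · have hao : a = o := by
              rcases hC.2.2 b hb a hadj.symm with h | h
              · exact absurd h ha
              · simpa using h
            subst hao
            exact Reachable.refl _
          · refine (ih hz hb).trans ?_
            apply SimpleGraph.Adj.reachable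
            simpa using hadj.symm
      exact key v o w rfl hv
    · have : chg π (fun _ : W => o) C = 0 := by
        unfold chg
        simp
      omega

end M5

end PS
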