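import Pool.Agent.Lib_helper96.PS.M5

set_option autoImplicit false

/-!
Module M4 for MP_8191b7_co, part a: general lemmas on connected sets, distances and folding.
-/

namespace PS.M4

open SimpleGraph PS.M1a PS.M5

variable {W : Type}

theorem adj_union {H : SimpleGraph W} {s t : Set W} (hs : (H.induce s).Connected)
    (ht : (H.induce t).Connected) {a b : W} (ha : a ∈ s) (hb : b ∈ t) (hab : H.Adj a b) :
    (H.induce (s ∪ t)).Connected := by
  refine H.induce_connected_of_patches a (Or.inl ha) ?_
  intro v hv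
  refine ⟨s ∪ t, subset_rfl, Or.inl ha, hv, ?_⟩
  rcases hv with hv | hv
  · exact reachable_mono Set.subset_union_left ha hv (hs.preconnected _ _)
  · have r1 : (H.induce (s ∪ t)).Reachable ⟨a, Or.inl ha⟩ ⟨b, Or.inr hb⟩ := by
      apply SimpleGraph.Adj.reachable
      simpa using hab
    exact r1.trans (reachable_mono Set.subset_union_right hb hv (ht.preconnected _ _))

theorem single_conn (H : SimpleGraph W) (a : W) : (H.induce {a}).Connected := by
  refine H.induce_connected_of_patches a rfl ?_
  intro v hv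
  refine ⟨{a}, subset_rfl, rfl, hv, ?_⟩
  have : v = a := hv
  subst this
  exact Reachable.refl _

/-- the complement of a component of the complement of a connected set is connected -/
theorem compl_comp {H : SimpleGraph W} (hH : H.Connected) {B K : Set W}
    (hB : (H.induce B).Connected) (hK : IsComp H Bᶜ K) : (H.induce Kᶜ).Connected := by
  obtain ⟨b, hb⟩ := hB.nonempty
  have sB : B ⊆ Kᶜ := fun x hx hx' => hK.1 hx' hx
  refine H.induce_connected_of_patches b (sB hb) ?_
  intro v hv
  refine ⟨Kᶜ, subset_rfl, sB hb, hv, ?_⟩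
  obtain ⟨w⟩ := hH.preconnected v b
  have key : ∀ (x y : W) (_ : H.Walk x y), y ∈ B → ∀ hx : x ∉ K,
      (H.induce Kᶜ).Reachable ⟨b, sB hb⟩ ⟨x, hx⟩ := by
    intro x y w
    induction w with
    | nil => exact fun hy hx => reachable_mono sB hb hy (hB.preconnected ⟨b, hb⟩ ⟨_, hy⟩)
    | cons hadj w ih =>
      rename_i x y z
      intro hz hx
      by_cases hxB : x ∈ B
      · exact reachable_mono sB hb hxB (hB.preconnected ⟨b, hb⟩ ⟨_, hxB⟩)
      have hy : y ∉ K := by
        intro hy
        rcases hK.2.2 y hy x hadj.symm with h | h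
        · exact hx h
        · exact h hxB
      refine (ih hz hy).trans ?_
      apply SimpleGraph.Adj.reachable
      simpa using hadj.symm
  exact key v b w hb hv

/-- a segment of a sequence of consecutively adjacent vertices is connected -/
theorem seg_conn {H : SimpleGraph W} (p : ℕ → W) (a b : ℕ) (hab : a < b)
    (h : ∀ i, a ≤ i → i + 1 < b → H.Adj (p i) (p (i + 1))) :
    (H.induce {w | ∃ i, a ≤ i ∧ i < b ∧ w = p i}).Connected := by
  have ha : p a ∈ {w | ∃ i, a ≤ i ∧ i < b ∧ w = p i} := ⟨a, le_rfl, hab, rfl⟩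
  refine H.induce_connected_of_patches (p a) ha ?_
  rintro v ⟨i, hai, hib, rfl⟩
  refine ⟨_, subset_rfl, ha, ⟨i, hai, hib, rfl⟩, ?_⟩
  induction i, hai using Nat.le_induction with
  | base => exact Reachable.refl _
  | succ i hi ih =>
    refine (ih (by omega)).trans ?_
    apply SimpleGraph.Adj.reachable
    simpa using h i hi hib

/-- geodesics as sequences -/
theorem exists_geod {H : SimpleGraph W} (hH : H.Connected) (u v : W) :
    ∃ g : ℕ → W, g 0 = u ∧ g (H.dist u v) = v ∧
      (∀ i, i < H.dist u v → H.Adj (g i) (g (i + 1))) ∧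
      (∀ i, i ≤ H.dist u v → H.dist u (g i) = i ∧ H.dist (g i) v = H.dist u v - i) := by
  obtain ⟨w, hw⟩ := hH.exists_walk_length_eq_dist u v
  refine ⟨fun i => w.getVert i, by simp, by rw [← hw]; simp, ?_, ?_⟩
  · intro i hi
    exact w.adj_getVert_succ (by omega)
  · intro i hi
    have h1 : H.dist u (w.getVert i) ≤ i := by
      refine (dist_le (w.take i)).trans ?_
      rw [Walk.take_length]
      exact min_le_left _ _
    have h2 : H.dist (w.getVert i) v ≤ H.dist u v - i := by
      refine (dist_le (w.drop i)).trans ?_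
      rw [Walk.drop_length]
      omega
    have h3 := hH.dist_triangle (u := u) (v := w.getVert i) (w := v)
    show H.dist u (w.getVert i) = i ∧ H.dist (w.getVert i) v = H.dist u v - i
    omega

/-- distance along an alternating connected set -/
theorem dist_alt [Fintype W] {H : SimpleGraph W} (F X Z : Set W)
    (hF : ∀ p ∈ F, ∀ q ∈ F, ¬ H.Adj p q) (hZ : (H.induce Z).Connected)
    (hZX : ∀ z ∈ Z, z ∈ X ∨ z ∈ F) {a b : W} (ha : a ∈ Z) (hb : b ∈ Z) :
    H.dist a b ≤ 2 * X.ncard := by
  classical
  obtain ⟨w, hw⟩ := (hZ.preconnected ⟨a, ha⟩ ⟨b, hb⟩).exists_isPath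
  have key : ∀ (x y : Z) (w : (H.induce Z).Walk x y),
      (x.1 ∈ F → w.length ≤ 2 * (w.support.filter (fun z => z.1 ∉ F)).length) ∧
      (x.1 ∉ F → w.length + 1 ≤ 2 * (w.support.filter (fun z => z.1 ∉ F)).length) := by
    intro x y w
    induction w with
    | nil =>
      rename_i u
      refine ⟨fun h => by simp, fun h => ?_⟩
      simp [h]
    | cons hadj w ih =>
      rename_i u v z
      have hadj' : H.Adj u.1 v.1 := by simpa using hadj
      constructor
      · intro hu
        have hv : v.1 ∉ F := fun hv => hF _ hu _ hv hadj'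
        have := ih.2 hv
        rw [Walk.support_cons, List.filter_cons_of_neg (by simpa using hu), Walk.length_cons]
        exact this
      · intro hu
        rw [Walk.support_cons, List.filter_cons_of_pos (by simpa using hu), Walk.length_cons,
          List.length_cons]
        by_cases hv : v.1 ∈ F
        · have := ih.1 hv
          omega
        · have := ih.2 hv
          omega
  have h1 : w.length ≤ 2 * (w.support.filter (fun z => z.1 ∉ F)).length := by
    by_cases haF : a ∈ F
    · exact (key _ _ w).1 haF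
    · have := (key _ _ w).2 haF
      omega
  have h2 : (w.support.filter (fun z => z.1 ∉ F)).length ≤ X.ncard := by
    have hnd : (w.support.filter (fun z => z.1 ∉ F)).Nodup := hw.support_nodup.filter _
    have hnd2 : ((w.support.filter (fun z => z.1 ∉ F)).map Subtype.val).Nodup :=
      hnd.map Subtype.val_injective
    rw [← List.length_map (f := Subtype.val), ← List.toFinset_card_of_nodup hnd2,
      ← Set.ncard_coe_finset]
    refine Set.ncard_le_ncard ?_ (Set.toFinite _)
    intro z hz
    simp only [List.coe_toFinset, List.mem_map, List.mem_filter, Set.mem_ofPred_eq] at hz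
    obtain ⟨z', ⟨-, hz'⟩, rfl⟩ := hz
    rcases hZX _ z'.2 with h | h
    · exact h
    · simp [h] at hz'
  have h3 : H.dist a b ≤ w.length := by
    have := dist_le (w.map (Embedding.induce (G := H) Z).toHom)
    rw [Walk.length_map] at this
    exact this
  omega

/-! ### folding -/

/-- the zigzag function with period `2 L` and values in `0..L` -/
def fold (L : ℕ) (t : ℤ) : ℕ := (min (t % (2 * L)) (2 * L - t % (2 * L))).toNat

theorem fold_le (L : ℕ) (hL : 0 < L) (t : ℤ) : fold L t ≤ L := by
  have h1 := Int.emod_nonneg t (show (2 * (L : ℤ)) ≠ 0 by omega)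
  have h2 := Int.emod_lt_of_pos t (show 0 < (2 * (L : ℤ)) by omega)
  unfold fold
  omega

theorem fold_small (L : ℕ) (hL : 0 < L) (t : ℕ) (ht : t ≤ L) : fold L t = t := by
  have h : (t : ℤ) % (2 * L) = t := Int.emod_eq_of_lt (by omega) (by omega)
  unfold fold
  rw [h]
  omega

theorem fold_succ (L : ℕ) (hL : 0 < L) (t : ℤ) :
    fold L (t + 1) ≤ fold L t + 1 ∧ fold L t ≤ fold L (t + 1) + 1 := by
  have h1 := Int.emod_nonneg t (show (2 * (L : ℤ)) ≠ 0 by omega)
  have h2 := Int.emod_lt_of_pos t (show 0 < (2 * (L : ℤ)) by omega)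
  have h3 : (t + 1) % (2 * (L : ℤ)) = t % (2 * L) + 1 ∨
      ((t + 1) % (2 * (L : ℤ)) = 0 ∧ t % (2 * (L : ℤ)) = 2 * L - 1) := by
    by_cases h : t % (2 * (L : ℤ)) + 1 < 2 * L
    · left
      rw [Int.add_emod, Int.emod_eq_of_lt (a := 1) (by omega) (by omega)]
      exact Int.emod_eq_of_lt (by omega) h
    · right
      have h' : t % (2 * (L : ℤ)) = 2 * L - 1 := by omega
      refine ⟨?_, h'⟩
      rw [Int.add_emod, Int.emod_eq_of_lt (a := 1) (by omega) (by omega), h']
      simp
  unfold fold
  rcases h3 with h | ⟨h, h'⟩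
  · rw [h]; omega
  · rw [h, h']; omega

theorem fold_lip (L : ℕ) (hL : 0 < L) (s t : ℤ) (h : |s - t| ≤ 1) : fold L s ≤ fold L t + 1 := by
  rw [abs_le] at h
  have : s = t ∨ s = t + 1 ∨ t = s + 1 := by omega
  rcases this with rfl | rfl | rfl
  · omega
  · exact (fold_succ L hL t).1
  · exact (fold_succ L hL s).2

theorem fold_preim (L : ℕ) (hL : 0 < L) (t : ℤ) :
    ∃ j : ℤ, t = 2 * L * j + fold L t ∨ t = 2 * L * j - fold L t := by
  have h1 := Int.emod_nonneg t (show (2 * (L : ℤ)) ≠ 0 by omega)
  have h2 := Int.emod_lt_of_pos t (show 0 < (2 * (L : ℤ)) by omega)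
  have h3 := Int.emod_add_mul_ediv t (2 * (L : ℤ))
  unfold fold
  rcases le_total (t % (2 * (L : ℤ))) L with h | h
  · refine ⟨t / (2 * L), Or.inl ?_⟩
    rw [min_eq_left (by omega), Int.toNat_of_nonneg h1]
    linarith
  · refine ⟨t / (2 * L) + 1, Or.inr ?_⟩
    rw [min_eq_right (by omega), Int.toNat_of_nonneg (by omega)]
    have : 2 * (L : ℤ) * (t / (2 * L) + 1) = 2 * L * (t / (2 * L)) + 2 * L := by ring
    rw [this]
    linarith

theorem fold_count (k : ℕ) (n : ℕ) (T : Finset ℤ)
    (hT : ∀ t ∈ T, fold (k + 1) t = n ∧ -(k + 1 : ℤ) ≤ t ∧ t ≤ 6 * k + 7) : T.card ≤ 10 := by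
  classical
  have hsub : T ⊆ (Finset.Icc (-1 : ℤ) 3).image (fun j => 2 * ((k : ℤ) + 1) * j + n) ∪
      (Finset.Icc (0 : ℤ) 4).image (fun j => 2 * ((k : ℤ) + 1) * j - n) := by
    intro t ht
    obtain ⟨h1, h2, h3⟩ := hT t ht
    have hn : n ≤ k + 1 := h1 ▸ fold_le (k + 1) (by omega) t
    obtain ⟨j, hj⟩ := fold_preim (k + 1) (by omega) t
    rw [h1] at hj
    push_cast at hj
    rw [Finset.mem_union, Finset.mem_image, Finset.mem_image]
    rcases hj with hj | hj
    · left
      refine ⟨j, ?_, hj.symm⟩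
      rw [Finset.mem_Icc]
      constructor
      · by_contra hlt
        push Not at hlt
        have : 2 * ((k : ℤ) + 1) * j ≤ 2 * ((k : ℤ) + 1) * (-2) :=
          mul_le_mul_of_nonneg_left (by omega) (by omega)
        omega
      · by_contra hlt
        push Not at hlt
        have : 2 * ((k : ℤ) + 1) * 4 ≤ 2 * ((k : ℤ) + 1) * j :=
          mul_le_mul_of_nonneg_left (by omega) (by omega)
        omega
    · right
      refine ⟨j, ?_, hj.symm⟩
      rw [Finset.mem_Icc]
      constructor
      · by_contra hlt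
        push Not at hlt
        have : 2 * ((k : ℤ) + 1) * j ≤ 2 * ((k : ℤ) + 1) * (-1) :=
          mul_le_mul_of_nonneg_left (by omega) (by omega)
        omega
      · by_contra hlt
        push Not at hlt
        have : 2 * ((k : ℤ) + 1) * 5 ≤ 2 * ((k : ℤ) + 1) * j :=
          mul_le_mul_of_nonneg_left (by omega) (by omega)
        omega
  refine (Finset.card_le_card hsub).trans ((Finset.card_union_le _ _).trans ?_)
  have c1 := Finset.card_image_le (s := Finset.Icc (-1 : ℤ) 3)
    (f := fun j => 2 * ((k : ℤ) + 1) * j + n)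
  have c2 := Finset.card_image_le (s := Finset.Icc (0 : ℤ) 4)
    (f := fun j => 2 * ((k : ℤ) + 1) * j - n)
  simp at c1 c2
  omega

theorem fold_count' (k : ℕ) (n : ℕ) (T : Finset ℤ)
    (hT : ∀ t ∈ T, fold (k + 1) t = n ∧ 0 ≤ t ∧ t ≤ 6 * k + 9) : T.card ≤ 20 := by
  classical
  have hsub : T ⊆ (Finset.Icc (-1 : ℤ) 4).image (fun j => 2 * ((k : ℤ) + 1) * j + n) ∪
      (Finset.Icc (0 : ℤ) 5).image (fun j => 2 * ((k : ℤ) + 1) * j - n) := by
    intro t ht
    obtain ⟨h1, h2, h3⟩ := hT t ht
    have hn : n ≤ k + 1 := h1 ▸ fold_le (k + 1) (by omega) t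
    obtain ⟨j, hj⟩ := fold_preim (k + 1) (by omega) t
    rw [h1] at hj
    push_cast at hj
    rw [Finset.mem_union, Finset.mem_image, Finset.mem_image]
    rcases hj with hj | hj
    · left
      refine ⟨j, ?_, hj.symm⟩
      rw [Finset.mem_Icc]
      constructor
      · by_contra hlt
        push Not at hlt
        have : 2 * ((k : ℤ) + 1) * j ≤ 2 * ((k : ℤ) + 1) * (-2) :=
          mul_le_mul_of_nonneg_left (by omega) (by omega)
        omega
      · by_contra hlt
        push Not at hlt
        have : 2 * ((k : ℤ) + 1) * 5 ≤ 2 * ((k : ℤ) + 1) * j :=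
          mul_le_mul_of_nonneg_left (by omega) (by omega)
        omega
    · right
      refine ⟨j, ?_, hj.symm⟩
      rw [Finset.mem_Icc]
      constructor
      · by_contra hlt
        push Not at hlt
        have : 2 * ((k : ℤ) + 1) * j ≤ 2 * ((k : ℤ) + 1) * (-1) :=
          mul_le_mul_of_nonneg_left (by omega) (by omega)
        omega
      · by_contra hlt
        push Not at hlt
        have : 2 * ((k : ℤ) + 1) * 6 ≤ 2 * ((k : ℤ) + 1) * j :=
          mul_le_mul_of_nonneg_left (by omega) (by omega)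
        omega
  refine (Finset.card_le_card hsub).trans ((Finset.card_union_le _ _).trans ?_)
  have c1 := Finset.card_image_le (s := Finset.Icc (-1 : ℤ) 4)
    (f := fun j => 2 * ((k : ℤ) + 1) * j + n)
  have c2 := Finset.card_image_le (s := Finset.Icc (0 : ℤ) 5)
    (f := fun j => 2 * ((k : ℤ) + 1) * j - n)
  simp at c1 c2
  omega

/-- counting the vertices of a part level by level -/
theorem count_levels [Fintype W] (X : Set W) (f : W → ℤ) (k c d : ℕ)
    (hf : ∀ t, Set.ncard {v | v ∈ X ∧ f v = t} ≤ c) (n : ℕ)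
    (hT : ∀ T : Finset ℤ, (∀ t ∈ T, fold (k + 1) t = n ∧ ∃ v ∈ X, f v = t) → T.card ≤ d) :
    Set.ncard {v | v ∈ X ∧ fold (k + 1) (f v) = n} ≤ c * d := by
  classical
  set s : Finset W := Finset.univ.filter (fun v => v ∈ X ∧ fold (k + 1) (f v) = n) with hs
  have h1 : Set.ncard {v | v ∈ X ∧ fold (k + 1) (f v) = n} = s.card := by
    rw [← Set.ncard_coe_finset]
    congr 1
    ext v
    simp [hs]
  rw [h1]
  have h2 := Finset.card_le_mul_card_image (f := f) s c (by
    intro t _
    rw [← Set.ncard_coe_finset]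
    refine le_trans (Set.ncard_le_ncard ?_ (Set.toFinite _)) (hf t)
    intro v hv
    simp only [Finset.coe_filter, hs, Finset.mem_filter, Finset.mem_univ, true_and,
      Set.mem_ofPred_eq] at hv
    exact ⟨hv.1.1, hv.2⟩)
  refine h2.trans (Nat.mul_le_mul_left c (hT _ ?_))
  intro t ht
  simp only [hs, Finset.mem_image, Finset.mem_filter, Finset.mem_univ, true_and] at ht
  obtain ⟨v, ⟨hvX, hv⟩, rfl⟩ := ht
  exact ⟨hv, v, hvX, rfl⟩

end PS.M4
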